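import Mathlib

/-!
# The circle as a manifold modelled on the half line (with charts in the open half line)
-/

set_option autoImplicit false

namespace Pool.Agent.D0H78.CircleHalf

open Set Filter Topology WithLp
open scoped Manifold ContDiff

instance factTwo : Fact ((0:ℝ) < 2) := ⟨two_pos⟩

/-- The circle of length two. -/
abbrev NN : Type := AddCircle (2 : ℝ)

/-- The representative in `[a, a + 2)`. -/
noncomputable def sa (a : ℝ) (q : NN) : ℝ := (AddCircle.equivIco (2:ℝ) a q : ℝ)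

lemma sa_mem (a : ℝ) (q : NN) : sa a q ∈ Ico a (a + 2) := (AddCircle.equivIco (2:ℝ) a q).2

@[simp] lemma coe_sa (a : ℝ) (q : NN) : ((sa a q : ℝ) : NN) = q := AddCircle.coe_equivIco

lemma sa_coe {a x : ℝ} (hx : x ∈ Ico a (a + 2)) : sa a (x : NN) = x :=
  AddCircle.equivIco_coe_of_mem hx

lemma sa_ne {a : ℝ} {q : NN} (h : q ≠ (a : NN)) : a < sa a q := by
  rcases (sa_mem a q).1.lt_or_eq with h1 | h1
  · exact h1
  · exfalso
    apply h
    rw [← coe_sa a q, ← h1]

lemma continuousAt_sa {a : ℝ} {q : NN} (h : q ≠ (a : NN)) : ContinuousAt (sa a) q :=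
  continuousAt_subtype_val.comp (AddCircle.continuousAt_equivIco (2:ℝ) a h)

/-- Locally the representative differs from the argument by a period. -/
lemma sa_coe_eventually {b x : ℝ} (h : (x : NN) ≠ (b : NN)) :
    ∀ᶠ x' : ℝ in 𝓝 x, sa b (x' : NN) = x' + (sa b (x : NN) - x) := by
  set c : ℝ := sa b (x : NN) - x with hc
  have h0 : ((c : ℝ) : NN) = 0 := by
    rw [hc, AddCircle.coe_sub, coe_sa, sub_self]
  have h1 : b < x + c := by
    rw [hc]
    have := sa_ne h
    linarith
  have h2 : x + c < b + 2 := by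
    rw [hc]
    have := (sa_mem b (x : NN)).2
    linarith
  have h3 : ∀ᶠ x' in 𝓝 x, x' + c ∈ Ioo b (b + 2) := by
    have hcont : ContinuousAt (fun x' : ℝ => x' + c) x := by fun_prop
    exact hcont.eventually_mem (Ioo_mem_nhds h1 h2)
  filter_upwards [h3] with x' hx'
  have h4 : ((x' + c : ℝ) : NN) = (x' : NN) := by
    rw [AddCircle.coe_add, h0, add_zero]
  rw [← h4, sa_coe ⟨hx'.1.le, hx'.2⟩]

/-- The charts. -/
noncomputable def cc (a : ℝ) : OpenPartialHomeomorph NN (EuclideanHalfSpace 1) where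
  source := {(a : NN)}ᶜ
  target := {z : EuclideanHalfSpace 1 | 0 < z.val 0 ∧ z.val 0 < 2}
  toFun := fun q => ⟨toLp 2 fun _ => sa a q - a, sub_nonneg.mpr (sa_mem a q).1⟩
  invFun := fun z => ((z.val 0 + a : ℝ) : NN)
  map_source' := by
    intro q hq
    have h1 := sa_ne (a := a) (q := q) hq
    have h2 := (sa_mem a q).2
    constructor
    · show 0 < sa a q - a
      linarith
    · show sa a q - a < 2
      linarith
  map_target' := by
    rintro z ⟨h1, h2⟩ hcon
    have h3 : sa a ((z.val 0 + a : ℝ) : NN) = z.val 0 + a := sa_coe ⟨by linarith, by linarith⟩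
    have h4 : ((z.val 0 + a : ℝ) : NN) = (a : NN) := hcon
    rw [h4, sa_coe ⟨le_rfl, by linarith⟩] at h3
    linarith
  left_inv' := by
    intro q hq
    show ((sa a q - a + a : ℝ) : NN) = q
    rw [sub_add_cancel, coe_sa]
  right_inv' := by
    rintro z ⟨h1, h2⟩
    apply Subtype.ext
    ext i
    rw [Subsingleton.elim i 0]
    show sa a ((z.val 0 + a : ℝ) : NN) - a = z.val 0
    rw [sa_coe ⟨by linarith, by linarith⟩]
    ring
  open_source := isOpen_compl_singleton
  open_target := by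
    have h1 : Continuous fun z : EuclideanHalfSpace 1 => z.val 0 :=
      (PiLp.continuous_apply 2 _ 0).comp continuous_subtype_val
    exact (isOpen_Ioi.preimage h1).inter (isOpen_Iio.preimage h1)
  continuousOn_toFun := by
    refine continuousOn_of_forall_continuousAt fun q hq => ?_
    have h1 : ContinuousAt (sa a) q := continuousAt_sa hq
    refine Topology.IsInducing.subtypeVal.continuousAt_iff.2 ?_
    show ContinuousAt (fun q => (toLp 2 fun _ => sa a q - a : EuclideanSpace ℝ (Fin 1))) q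
    refine (PiLp.continuous_toLp 2 _).continuousAt.comp ?_
    exact continuousAt_pi.2 fun _ => h1.sub continuousAt_const
  continuousOn_invFun := by
    refine Continuous.continuousOn ?_
    refine (AddCircle.continuous_mk' (2:ℝ)).comp ?_
    exact ((PiLp.continuous_apply 2 _ 0).comp continuous_subtype_val).add continuous_const

noncomputable instance instCS : ChartedSpace (EuclideanHalfSpace 1) NN where
  atlas := range cc
  chartAt q := cc (sa 0 q - 1)
  mem_chart_source q := by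
    intro hcon
    have h1 : q = ((sa 0 q - 1 : ℝ) : NN) := hcon
    have h2 : ((sa 0 q - (sa 0 q - 1) : ℝ) : NN) = 0 := by
      rw [AddCircle.coe_sub, ← h1, coe_sa, sub_self]
    have h3 : sa 0 (((1:ℝ)) : NN) = 1 := sa_coe ⟨by norm_num, by norm_num⟩
    have h4 : sa 0 (((0:ℝ)) : NN) = 0 := sa_coe ⟨by norm_num, by norm_num⟩
    rw [sub_sub_cancel] at h2
    rw [h2, ← AddCircle.coe_zero (p := (2:ℝ)), h4] at h3
    norm_num at h3
  chart_mem_atlas q := ⟨_, rfl⟩

lemma chartAt_eq (q : NN) : chartAt (EuclideanHalfSpace 1) q = cc (sa 0 q - 1) := rfl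

/-- The local formula for a map whose lift is smooth. -/
lemma contDiffWithinAt_aux {n : ℕ∞ω} {E : ℝ → ℝ} {a b : ℝ} {v : EuclideanSpace ℝ (Fin 1)}
    (hv : 0 ≤ v 0)
    (hE : ContDiffAt ℝ n E (v 0 + a)) (hne : ((E (v 0 + a) : ℝ) : NN) ≠ (b : NN)) :
    ContDiffWithinAt ℝ n (fun w : EuclideanSpace ℝ (Fin 1) =>
      (toLp 2 fun _ => sa b ((E (max (w 0) 0 + a) : ℝ) : NN) - b : EuclideanSpace ℝ (Fin 1)))
      {w | 0 ≤ w 0} v := by
  have h1 : ContDiffAt ℝ n (fun w : EuclideanSpace ℝ (Fin 1) => w 0 + a) v := by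
    have : ContDiff ℝ n (fun w : EuclideanSpace ℝ (Fin 1) => w 0 + a) := by fun_prop
    exact this.contDiffAt
  have h2 : ContDiffAt ℝ n (fun w : EuclideanSpace ℝ (Fin 1) => E (w 0 + a)) v :=
    ContDiffAt.comp (g := E) v hE h1
  set c : ℝ := sa b ((E (v 0 + a) : ℝ) : NN) - E (v 0 + a) with hc
  have h3 : ContDiffAt ℝ n (fun w : EuclideanSpace ℝ (Fin 1) =>
      (toLp 2 fun _ => E (w 0 + a) + c - b : EuclideanSpace ℝ (Fin 1))) v := by
    rw [contDiffAt_euclidean]
    intro i
    exact (h2.add contDiffAt_const).sub contDiffAt_const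
  have h4 : ∀ᶠ w : EuclideanSpace ℝ (Fin 1) in 𝓝 v,
      sa b ((E (w 0 + a) : ℝ) : NN) = E (w 0 + a) + c :=
    h2.continuousAt.eventually (sa_coe_eventually hne)
  have h5 : ContDiffWithinAt ℝ n (fun w : EuclideanSpace ℝ (Fin 1) =>
      (toLp 2 fun _ => E (w 0 + a) + c - b : EuclideanSpace ℝ (Fin 1)))
      {w : EuclideanSpace ℝ (Fin 1) | 0 ≤ w 0} v := h3.contDiffWithinAt
  refine h5.congr_of_eventuallyEq_of_mem ?_ hv
  filter_upwards [self_mem_nhdsWithin, nhdsWithin_le_nhds h4] with w hw hw4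
  have hw' : max (w 0) 0 = w 0 := max_eq_left hw
  rw [hw', hw4]

lemma cc_symm_apply (a : ℝ) (v : EuclideanSpace ℝ (Fin 1)) :
    (cc a).symm ((𝓡∂ 1).symm v) = ((max (v 0) 0 + a : ℝ) : NN) := rfl

lemma cc_apply (a : ℝ) (q : NN) :
    (𝓡∂ 1) (cc a q) = (toLp 2 fun _ => sa a q - a : EuclideanSpace ℝ (Fin 1)) := rfl

instance instMfd {n : ℕ∞ω} : IsManifold (𝓡∂ 1) n NN := by
  apply isManifold_of_contDiffOn
  rintro e e' ⟨a, rfl⟩ ⟨b, rfl⟩
  rintro v ⟨⟨hv1, hv2⟩, hv3⟩
  rw [range_modelWithCornersEuclideanHalfSpace] at hv3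
  have hv0 : (0:ℝ) ≤ v 0 := hv3
  have hmax : max (v 0) 0 = v 0 := max_eq_left hv0
  have hne : (((fun x : ℝ => x) (v 0 + a) : ℝ) : NN) ≠ (b : NN) := by
    have h1 : ((max (v 0) 0 + a : ℝ) : NN) ≠ (b : NN) := hv2
    rwa [hmax] at h1
  have h1 := contDiffWithinAt_aux (n := n) (E := fun x : ℝ => x) (a := a) (b := b) hv0
    contDiffAt_id hne
  refine h1.mono ?_
  rintro w ⟨-, hw⟩
  rw [range_modelWithCornersEuclideanHalfSpace] at hw
  exact hw

/-- A map of the circle whose lift is smooth, is smooth. -/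
lemma contMDiff_of_lift {n : ℕ∞ω} {E : ℝ → ℝ} (hE : ContDiff ℝ n E) {F : NN → NN}
    (hF : ∀ x : ℝ, F (x : NN) = ((E x : ℝ) : NN)) :
    ContMDiff (𝓡∂ 1) (𝓡∂ 1) n F := by
  intro q
  rw [contMDiffAt_iff]
  constructor
  · have hc : Continuous F := by
      have h1 : Continuous (F ∘ ((↑) : ℝ → NN)) := by
        have : F ∘ ((↑) : ℝ → NN) = ((↑) : ℝ → NN) ∘ E := funext hF
        rw [this]
        exact (AddCircle.continuous_mk' (2:ℝ)).comp hE.continuous
      exact (QuotientAddGroup.isQuotientMap_mk _).continuous_iff.2 h1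
    exact hc.continuousAt
  · set a : ℝ := sa 0 q - 1 with ha
    set b : ℝ := sa 0 (F q) - 1 with hb
    set v : EuclideanSpace ℝ (Fin 1) := toLp 2 fun _ => sa a q - a with hv
    have hq : q ≠ (a : NN) := mem_chart_source (EuclideanHalfSpace 1) q
    have hFq : F q ≠ (b : NN) := mem_chart_source (EuclideanHalfSpace 1) (F q)
    have hv0 : v 0 = sa a q - a := rfl
    have hv1 : 0 ≤ v 0 := by
      rw [hv0]
      exact sub_nonneg.2 (sa_mem a q).1
    have hne : ((E (v 0 + a) : ℝ) : NN) ≠ (b : NN) := by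
      rw [hv0, sub_add_cancel, ← hF, coe_sa]
      exact hFq
    have h1 := contDiffWithinAt_aux (n := n) (E := E) (a := a) (b := b) hv1
      hE.contDiffAt hne
    rw [range_modelWithCornersEuclideanHalfSpace]
    have h2 : (extChartAt (𝓡∂ 1) (F q) ∘ F ∘ (extChartAt (𝓡∂ 1) q).symm) =
        (fun w : EuclideanSpace ℝ (Fin 1) =>
      (toLp 2 fun _ => sa b ((E (max (w 0) 0 + a) : ℝ) : NN) - b : EuclideanSpace ℝ (Fin 1))) := by
      funext w
      show (toLp 2 fun _ => sa b (F ((max (w 0) 0 + a : ℝ) : NN)) - b :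
        EuclideanSpace ℝ (Fin 1)) = _
      rw [hF]
    rw [h2]
    exact h1

end Pool.Agent.D0H78.CircleHalf
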