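import Mathlib

/-!
# The odd and periodic extension of a `C^1` function on `[0,1]`
-/

set_option autoImplicit false

namespace Pool.Agent.D0H78.DoubleE

open Set Filter Topology MeasureTheory

/-- The triangle wave. -/
noncomputable def kap (x : ℝ) : ℝ := Real.arccos (Real.cos (Real.pi * x)) / Real.pi

lemma kap_cont : Continuous kap := by
  unfold kap
  exact (Real.continuous_arccos.comp (by fun_prop)).div_const _

lemma kap_mem (x : ℝ) : kap x ∈ Icc (0 : ℝ) 1 := by
  unfold kap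
  refine ⟨div_nonneg (Real.arccos_nonneg _) Real.pi_pos.le, ?_⟩
  rw [div_le_one Real.pi_pos]
  exact Real.arccos_le_pi _

lemma kap_of_mem {x : ℝ} (hx : x ∈ Icc (0 : ℝ) 1) : kap x = x := by
  unfold kap
  rw [Real.arccos_cos (mul_nonneg Real.pi_pos.le hx.1)
    (mul_le_of_le_one_right Real.pi_pos.le hx.2)]
  field_simp

lemma kap_neg (x : ℝ) : kap (-x) = kap x := by
  unfold kap
  rw [mul_neg, Real.cos_neg]

lemma kap_add_two (x : ℝ) : kap (x + 2) = kap x := by
  unfold kap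
  rw [mul_add, mul_comm Real.pi 2, Real.cos_add_two_pi]

/-- The extension. -/
lemma exists_ext {h : ℝ → ℝ} (hh : ContDiffOn ℝ 1 h (Icc 0 1)) :
    ∃ E : ℝ → ℝ, ContDiff ℝ 1 E ∧ (∀ x ∈ Icc (0 : ℝ) 1, E x = h x) ∧
      (∀ x, E (-x) = 2 * h 0 - E x) ∧ (∀ x, E (x + 2) = E x + 2 * (h 1 - h 0)) := by
  set D : ℝ → ℝ := derivWithin h (Icc 0 1) with hD
  have hDc : ContinuousOn D (Icc 0 1) :=
    hh.continuousOn_derivWithin (uniqueDiffOn_Icc zero_lt_one) le_rfl
  set g : ℝ → ℝ := fun t => D (kap t) with hg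
  have hgc : Continuous g := hDc.comp_continuous kap_cont kap_mem
  have hgi : ∀ a b : ℝ, IntervalIntegrable g volume a b := fun a b =>
    hgc.intervalIntegrable a b
  have hgneg : ∀ t, g (-t) = g t := fun t => by simp only [hg, kap_neg]
  have hgper : ∀ t, g (t + 2) = g t := fun t => by simp only [hg, kap_add_two]
  let E : ℝ → ℝ := fun x => h 0 + ∫ t in (0:ℝ)..x, g t
  have hEd : ∀ x, HasDerivAt E (g x) x := by
    intro x
    have := intervalIntegral.integral_hasDerivAt_right (hgi 0 x)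
      (hgc.stronglyMeasurableAtFilter _ _) hgc.continuousAt
    exact this.const_add _
  have hE1 : ∀ x ∈ Icc (0 : ℝ) 1, E x = h x := by
    intro x hx
    have h1 : ∫ t in (0:ℝ)..x, g t = h x - h 0 := by
      refine intervalIntegral.integral_eq_sub_of_hasDerivAt_of_le hx.1
        (hh.continuousOn.mono (Icc_subset_Icc_right hx.2)) ?_ (hgi 0 x)
      intro t ht
      have ht' : t ∈ Icc (0:ℝ) 1 := ⟨ht.1.le, ht.2.le.trans hx.2⟩
      have hn : Icc (0:ℝ) 1 ∈ 𝓝 t := Icc_mem_nhds ht.1 (ht.2.trans_le hx.2)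
      have h2 : DifferentiableWithinAt ℝ h (Icc 0 1) t :=
        (hh.differentiableOn one_ne_zero) t ht'
      have h3 : HasDerivAt h (D t) t := h2.hasDerivWithinAt.hasDerivAt hn
      have h4 : g t = D t := by simp only [hg, kap_of_mem ht']
      rw [h4]
      exact h3
    show h 0 + ∫ t in (0:ℝ)..x, g t = h x
    rw [h1]
    ring
  have hneg : ∀ x : ℝ, ∫ t in (0:ℝ)..(-x), g t = - ∫ t in (0:ℝ)..x, g t := by
    intro x
    have h1 : ∫ t in (0:ℝ)..x, g (-t) = ∫ t in (-x)..(-0), g t :=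
      intervalIntegral.integral_comp_neg g
    simp only [hgneg, neg_zero] at h1
    rw [h1, intervalIntegral.integral_symm]
  refine ⟨E, ?_, hE1, ?_, ?_⟩
  · rw [contDiff_one_iff_deriv]
    refine ⟨fun x => (hEd x).differentiableAt, ?_⟩
    have : deriv E = g := funext fun x => (hEd x).deriv
    rw [this]
    exact hgc
  · intro x
    show h 0 + ∫ t in (0:ℝ)..(-x), g t = 2 * h 0 - (h 0 + ∫ t in (0:ℝ)..x, g t)
    rw [hneg]
    ring
  · intro x
    have h1 : ∫ t in x..(x+2), g t = ∫ t in (-1:ℝ)..(-1+2), g t :=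
      Function.Periodic.intervalIntegral_add_eq hgper x (-1)
    have h2 : ∫ t in (0:ℝ)..(x+2), g t = (∫ t in (0:ℝ)..x, g t) + ∫ t in x..(x+2), g t :=
      (intervalIntegral.integral_add_adjacent_intervals (hgi _ _) (hgi _ _)).symm
    have h3 : ∫ t in (-1:ℝ)..(-1+2), g t =
        (∫ t in (-1:ℝ)..0, g t) + ∫ t in (0:ℝ)..1, g t := by
      rw [intervalIntegral.integral_add_adjacent_intervals (hgi _ _) (hgi _ _)]
      norm_num
    have h4 : ∫ t in (-1:ℝ)..0, g t = ∫ t in (0:ℝ)..1, g t := by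
      rw [intervalIntegral.integral_symm, hneg, neg_neg]
    have h5 : ∫ t in (0:ℝ)..1, g t = h 1 - h 0 := by
      have := hE1 1 ⟨zero_le_one, le_rfl⟩
      have h6 : h 0 + ∫ t in (0:ℝ)..1, g t = h 1 := this
      linarith
    show h 0 + ∫ t in (0:ℝ)..(x+2), g t = h 0 + (∫ t in (0:ℝ)..x, g t) + 2 * (h 1 - h 0)
    rw [h2, h1, h3, h4, h5]
    ring

end Pool.Agent.D0H78.DoubleE
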