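import Mathlib
import Pool.Agent.D0H78.DoubleE
import Pool.Agent.D0H78.CircleHalf

/-!
# Doubling: the `C^1` diffeomorphisms of `[0,1]` act on the circle
-/

set_option autoImplicit false

namespace Pool.Agent.D0H78.Doubling

open Set Filter Topology WithLp Pool.Agent.D0H78.CircleHalf Pool.Agent.D0H78.DoubleE
open scoped Manifold ContDiff

/-- The unit interval. -/
abbrev UI : Type := Icc (0:ℝ) 1

/-- A continuous bijection of `[0,1]` preserves or exchanges the end points. -/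
lemma endpoints (f : UI → UI) (hf : Continuous f) (hb : Function.Bijective f) :
    ((f 0 : ℝ) = 0 ∧ (f 1 : ℝ) = 1) ∨ ((f 0 : ℝ) = 1 ∧ (f 1 : ℝ) = 0) := by
  rcases hf.strictMono_of_inj hb.1 with h | h
  · left
    constructor
    · obtain ⟨y, hy⟩ := hb.2 0
      have h1 : f 0 ≤ f y := h.monotone y.2.1
      rw [hy] at h1
      exact le_antisymm h1 (f 0).2.1
    · obtain ⟨y, hy⟩ := hb.2 1
      have h1 : f y ≤ f 1 := h.monotone y.2.2
      rw [hy] at h1
      exact le_antisymm (f 1).2.2 h1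
  · right
    constructor
    · obtain ⟨y, hy⟩ := hb.2 1
      have h1 : f y ≤ f 0 := h.antitone y.2.1
      rw [hy] at h1
      exact le_antisymm (f 0).2.2 h1
    · obtain ⟨y, hy⟩ := hb.2 0
      have h1 : f 1 ≤ f y := h.antitone y.2.2
      rw [hy] at h1
      exact le_antisymm h1 (f 1).2.1

lemma coe_two_mul_int (m : ℤ) : ((2 * (m:ℝ) : ℝ) : NN) = 0 := by
  rw [AddCircle.coe_eq_zero_iff]
  exact ⟨m, by simp [mul_comm]⟩

/-- The double of a `C^1` diffeomorphism. -/
lemma exists_double (f : UI → UI) (hf : ContMDiff (𝓡∂ 1) (𝓡∂ 1) 1 f)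
    (hb : Function.Bijective f) :
    ∃ F : NN → NN, ContMDiff (𝓡∂ 1) (𝓡∂ 1) 1 F ∧
      (∀ x : UI, F (((x:ℝ)) : NN) = (((f x : ℝ)) : NN)) ∧ ∀ q, F (-q) = - F q := by
  let h : ℝ → ℝ := fun x => (f (projIcc 0 1 zero_le_one x) : ℝ)
  have hh : ContDiffOn ℝ 1 h (Icc 0 1) := by
    rw [← contMDiffOn_iff_contDiffOn]
    have h1 : ContMDiff (𝓡∂ 1) 𝓘(ℝ) 1 (fun x : UI => (f x : ℝ)) :=
      contMDiff_subtypeVal_Icc.comp hf
    exact contMDiffOn_comp_projIcc_iff.2 h1
  have hx : ∀ x : UI, h x = f x := by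
    intro x
    show ((f (projIcc 0 1 zero_le_one (x:ℝ))) : ℝ) = f x
    rw [projIcc_val]
  have hends := endpoints f hf.continuous hb
  have h0 : h 0 = f 0 := hx 0
  have h1 : h 1 = f 1 := hx 1
  obtain ⟨E, hE1, hE2, hE3, hE4⟩ := exists_ext hh
  have hz0 : ((2 * h 0 : ℝ) : NN) = 0 := by
    rw [h0]
    rcases hends with ⟨e, -⟩ | ⟨e, -⟩ <;> rw [e]
    · simp
    · simpa using coe_two_mul_int 1
  have hz1 : ((2 * (h 1 - h 0) : ℝ) : NN) = 0 := by
    rw [h0, h1]
    rcases hends with ⟨e, e'⟩ | ⟨e, e'⟩ <;> rw [e, e']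
    · simpa using coe_two_mul_int 1
    · have := coe_two_mul_int (-1)
      simpa using this
  have hper : Function.Periodic (fun x : ℝ => ((E x : ℝ) : NN)) 2 := by
    intro x
    show ((E (x + 2) : ℝ) : NN) = ((E x : ℝ) : NN)
    rw [hE4, AddCircle.coe_add, hz1, add_zero]
  let F : NN → NN := hper.lift
  have hF : ∀ x : ℝ, F (x : NN) = ((E x : ℝ) : NN) := fun x => hper.lift_coe x
  refine ⟨F, contMDiff_of_lift hE1 hF, ?_, ?_⟩
  · intro x
    rw [hF, hE2 x x.2, hx]
  · intro q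
    obtain ⟨x, rfl⟩ := QuotientAddGroup.mk_surjective q
    show F (-((x : ℝ) : NN)) = - F ((x : ℝ) : NN)
    rw [← AddCircle.coe_neg, hF, hF, hE3, AddCircle.coe_sub, hz0, zero_sub]

lemma eq_or_neg (q : NN) : ∃ x : UI, q = ((x:ℝ) : NN) ∨ q = -((x:ℝ) : NN) := by
  have h1 := (sa_mem (-1) q)
  by_cases h : 0 ≤ sa (-1) q
  · refine ⟨⟨sa (-1) q, h, by have := h1.2; linarith⟩, Or.inl ?_⟩
    exact (coe_sa _ _).symm
  · refine ⟨⟨- sa (-1) q, by linarith, by have := h1.1; linarith⟩, Or.inr ?_⟩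
    show q = -(((-sa (-1) q : ℝ)) : NN)
    rw [AddCircle.coe_neg, neg_neg, coe_sa]

/-- Two odd maps which agree on the upper half are equal. -/
lemma ext_odd {F G : NN → NN} (h1 : ∀ x : UI, F ((x:ℝ) : NN) = G ((x:ℝ) : NN))
    (h2 : ∀ q, F (-q) = - F q) (h3 : ∀ q, G (-q) = - G q) : F = G := by
  funext q
  obtain ⟨x, hx | hx⟩ := eq_or_neg q
  · rw [hx, h1]
  · rw [hx, h2, h3, h1]

/-- A group acting by `C^1` diffeomorphisms on the interval acts so on the circle. -/
lemma exists_action {G : Type} [Group G] (ρ : G →* Equiv.Perm UI) (hinj : Function.Injective ρ)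
    (hρ : ∀ g : G, ContMDiff (𝓡∂ 1) (𝓡∂ 1) 1 (ρ g)) :
    ∃ σ : G →* Equiv.Perm NN, Function.Injective σ ∧
      ∀ g : G, ContMDiff (𝓡∂ 1) (𝓡∂ 1) 1 (σ g) := by
  choose F hF1 hF2 hF3 using fun g : G => exists_double (ρ g) (hρ g) (ρ g).bijective
  have hmul : ∀ g h : G, F (g * h) = F g ∘ F h := by
    intro g h
    refine ext_odd ?_ (hF3 _) ?_
    · intro x
      rw [hF2, Function.comp_apply, hF2, hF2, map_mul]
      rfl
    · intro q
      rw [Function.comp_apply, hF3, hF3]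
      rfl
  have hone : F 1 = id := by
    refine ext_odd ?_ (hF3 _) fun q => rfl
    intro x
    rw [hF2, map_one]
    rfl
  let σ : G →* Equiv.Perm NN :=
    { toFun := fun g =>
        { toFun := F g
          invFun := F g⁻¹
          left_inv := by
            intro q
            have := congrFun (hmul g⁻¹ g) q
            rw [inv_mul_cancel, hone] at this
            exact this.symm
          right_inv := by
            intro q
            have := congrFun (hmul g g⁻¹) q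
            rw [mul_inv_cancel, hone] at this
            exact this.symm }
      map_one' := by
        apply Equiv.ext
        intro q
        exact congrFun hone q
      map_mul' := by
        intro g h
        apply Equiv.ext
        intro q
        exact congrFun (hmul g h) q }
  have hσ : ∀ g q, σ g q = F g q := fun _ _ => rfl
  refine ⟨σ, ?_, fun g => hF1 g⟩
  rw [injective_iff_map_eq_one]
  intro g hg
  apply hinj
  rw [map_one]
  apply Equiv.ext
  intro x
  have h1 : F g ((x:ℝ) : NN) = ((x:ℝ) : NN) := by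
    rw [← hσ, hg]
    rfl
  rw [hF2, AddCircle.coe_eq_coe_iff_of_mem_Ico (a := 0)] at h1
  · exact Subtype.ext h1
  · have := (ρ g x).2
    exact ⟨this.1, by linarith [this.2]⟩
  · exact ⟨x.2.1, by linarith [x.2.2]⟩

/-- The circle is not homeomorphic to the interval. -/
lemma not_homeo (θ : UI ≃ₜ NN) : False := by
  let m : UI := ⟨1/2, by norm_num, by norm_num⟩
  obtain ⟨a, ha⟩ := QuotientAddGroup.mk_surjective (θ m)
  have ha' : ((a : ℝ) : NN) = θ m := ha
  have h1 : IsPreconnected (((↑) : ℝ → NN) '' Ioo a (a + 2)) :=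
    isPreconnected_Ioo.image _ (AddCircle.continuous_mk' (2:ℝ)).continuousOn
  have h2 : ((↑) : ℝ → NN) '' Ioo a (a + 2) = {θ m}ᶜ := by
    ext q
    constructor
    · rintro ⟨x, hx, rfl⟩ hcon
      have h3 : ((x : ℝ) : NN) = ((a : ℝ) : NN) := by
        rw [ha']
        exact hcon
      rw [AddCircle.coe_eq_coe_iff_of_mem_Ico (a := a) ⟨hx.1.le, hx.2⟩
        ⟨le_rfl, by linarith⟩] at h3
      exact hx.1.ne' h3
    · intro hq
      refine ⟨sa a q, ⟨sa_ne ?_, (sa_mem a q).2⟩, coe_sa a q⟩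
      rw [ha']
      exact hq
  rw [h2] at h1
  have h3 : IsPreconnected (((↑) : UI → ℝ) '' (θ.symm '' {θ m}ᶜ)) :=
    (h1.image _ θ.symm.continuous.continuousOn).image _ continuous_subtype_val.continuousOn
  have hmem : ∀ x : UI, x ≠ m → (x:ℝ) ∈ (((↑) : UI → ℝ) '' (θ.symm '' {θ m}ᶜ)) := by
    intro x hx
    refine ⟨x, ⟨θ x, fun h => hx (θ.injective h), θ.symm_apply_apply x⟩, rfl⟩
  have h0 : (0:ℝ) ∈ (((↑) : UI → ℝ) '' (θ.symm '' {θ m}ᶜ)) := by
    refine hmem 0 fun h => ?_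
    have : (0:ℝ) = 1/2 := congrArg Subtype.val h
    norm_num at this
  have h1' : (1:ℝ) ∈ (((↑) : UI → ℝ) '' (θ.symm '' {θ m}ᶜ)) := by
    refine hmem 1 fun h => ?_
    have : (1:ℝ) = 1/2 := congrArg Subtype.val h
    norm_num at this
  have h4 := h3.Icc_subset h0 h1' (show (1/2:ℝ) ∈ Icc (0:ℝ) 1 by constructor <;> norm_num)
  obtain ⟨x, ⟨q, hq, hqx⟩, hx⟩ := h4
  have hxm : x = m := Subtype.ext hx
  apply hq
  rw [← hxm, ← hqx]
  exact (θ.apply_symm_apply q).symm

end Pool.Agent.D0H78.Doubling
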