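import Mathlib

/-!
# Finitary automorphisms of the binary rooted tree

Vertices are words `x_n ... x_1` (deepest letter first), so that the parent of a word is its tail.
-/

set_option autoImplicit false

namespace Pool.Agent.D0H78.Finitary

open Function

/-- The group of finitary automorphisms of the binary rooted tree. -/
def FG : Subgroup (Equiv.Perm (List Bool)) where
  carrier := {g | (∀ w, (g w).length = w.length) ∧ (∀ w, (g w).tail = g w.tail) ∧
    {v | g (true :: v) ≠ true :: g v}.Finite}
  one_mem' := by
    refine ⟨fun _ => rfl, fun _ => rfl, ?_⟩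
    simp
  mul_mem' := by
    rintro g h ⟨g1, g2, g3⟩ ⟨h1, h2, h3⟩
    refine ⟨fun w => by simp [g1, h1], fun w => by simp [g2, h2], ?_⟩
    refine ((g3.preimage h.injective.injOn).union h3).subset ?_
    intro v hv
    by_contra hcon
    simp only [Set.mem_union, Set.mem_preimage, Set.mem_ofPred_eq, not_or, not_not] at hcon
    apply hv
    simp [hcon.1, hcon.2]
  inv_mem' := by
    rintro g ⟨g1, g2, g3⟩
    refine ⟨fun w => ?_, fun w => ?_, ?_⟩
    · have := g1 (g⁻¹ w)
      simpa using this.symm
    · have := g2 (g⁻¹ w)
      have h1 : g (g⁻¹ w) = w := g.apply_symm_apply w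
      rw [h1] at this
      rw [this]
      exact (g.symm_apply_apply _).symm
    · refine (g3.image g).subset ?_
      intro v hv
      refine ⟨g⁻¹ v, ?_, by simp⟩
      intro h
      apply hv
      rw [Equiv.Perm.inv_eq_iff_eq, h]
      simp

/-- The portrait of `g`. -/
def sw (g : Equiv.Perm (List Bool)) (v : List Bool) : ZMod 2 :=
  if g (true :: v) = true :: g v then 0 else 1

lemma length_apply (g : FG) (w : List Bool) : ((g : Equiv.Perm (List Bool)) w).length = w.length :=
  g.2.1 w

lemma tail_apply (g : FG) (w : List Bool) :
    ((g : Equiv.Perm (List Bool)) w).tail = (g : Equiv.Perm (List Bool)) w.tail :=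
  g.2.2.1 w

lemma apply_nil (g : FG) : (g : Equiv.Perm (List Bool)) [] = [] := by
  have := length_apply g []
  exact List.length_eq_zero_iff.1 (by simpa using this)

lemma apply_cons (g : FG) (x : Bool) (v : List Bool) :
    ∃ y, (g : Equiv.Perm (List Bool)) (x :: v) = y :: (g : Equiv.Perm (List Bool)) v := by
  have h1 := length_apply g (x :: v)
  have h2 := tail_apply g (x :: v)
  rcases h : (g : Equiv.Perm (List Bool)) (x :: v) with _ | ⟨y, u⟩
  · rw [h] at h1
    simp at h1
  · rw [h] at h2
    simp only [List.tail_cons] at h2
    exact ⟨y, by rw [h2]⟩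

lemma sw_eq_zero (g : FG) (v : List Bool) : sw g v = 0 ↔
    ∀ x, (g : Equiv.Perm (List Bool)) (x :: v) = x :: (g : Equiv.Perm (List Bool)) v := by
  unfold sw
  constructor
  · intro h
    have ht : (g : Equiv.Perm (List Bool)) (true :: v) = true :: (g : Equiv.Perm (List Bool)) v := by
      by_contra hcon
      rw [if_neg hcon] at h
      exact one_ne_zero h
    rintro (_ | _)
    · obtain ⟨y, hy⟩ := apply_cons g false v
      rcases y with _ | _
      · exact hy
      · rw [← ht] at hy
        have := (g : Equiv.Perm (List Bool)).injective hy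
        simp at this
    · exact ht
  · intro h
    rw [if_pos (h true)]

lemma sw_eq_one (g : FG) (v : List Bool) : sw g v = 1 ↔
    ∀ x, (g : Equiv.Perm (List Bool)) (x :: v) = (!x) :: (g : Equiv.Perm (List Bool)) v := by
  constructor
  · intro h
    have ht : (g : Equiv.Perm (List Bool)) (true :: v) ≠ true :: (g : Equiv.Perm (List Bool)) v := by
      intro hcon
      unfold sw at h
      rw [if_pos hcon] at h
      exact zero_ne_one h
    have ht' : (g : Equiv.Perm (List Bool)) (true :: v) =
        false :: (g : Equiv.Perm (List Bool)) v := by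
      obtain ⟨y, hy⟩ := apply_cons g true v
      rcases y with _ | _
      · exact hy
      · exact absurd hy ht
    rintro (_ | _)
    · obtain ⟨y, hy⟩ := apply_cons g false v
      rcases y with _ | _
      · rw [← ht'] at hy
        have := (g : Equiv.Perm (List Bool)).injective hy
        simp at this
      · exact hy
    · exact ht'
  · intro h
    unfold sw
    rw [if_neg]
    rw [h true]
    simp

lemma sw_zero_or_one (g : Equiv.Perm (List Bool)) (v : List Bool) : sw g v = 0 ∨ sw g v = 1 := by
  unfold sw
  split_ifs
  · exact Or.inl rfl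
  · exact Or.inr rfl

lemma sw_mul (g h : FG) (v : List Bool) :
    sw ((g * h : FG) : Equiv.Perm (List Bool)) v =
      sw g ((h : Equiv.Perm (List Bool)) v) + sw h v := by
  rcases sw_zero_or_one (g : Equiv.Perm (List Bool)) ((h : Equiv.Perm (List Bool)) v) with h1 | h1 <;>
  rcases sw_zero_or_one (h : Equiv.Perm (List Bool)) v with h2 | h2 <;> rw [h1, h2]
  · rw [zero_add, sw_eq_zero]
    rw [sw_eq_zero] at h1 h2
    intro x
    simp [h1, h2]
  · rw [zero_add, sw_eq_one]
    rw [sw_eq_zero] at h1
    rw [sw_eq_one] at h2
    intro x
    simp [h1, h2]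
  · rw [add_zero, sw_eq_one]
    rw [sw_eq_one] at h1
    rw [sw_eq_zero] at h2
    intro x
    simp [h1, h2]
  · have : (1 + 1 : ZMod 2) = 0 := by decide
    rw [this, sw_eq_zero]
    rw [sw_eq_one] at h1 h2
    intro x
    simp [h1, h2]

lemma sw_finite (g : FG) : {v | sw (g : Equiv.Perm (List Bool)) v ≠ 0}.Finite := by
  refine g.2.2.2.subset ?_
  intro v hv h
  apply hv
  unfold sw
  rw [if_pos h]

lemma eq_one_of_sw (g : FG) (h : ∀ v, sw (g : Equiv.Perm (List Bool)) v = 0) : g = 1 := by
  apply Subtype.ext
  apply Equiv.ext
  intro w
  show (g : Equiv.Perm (List Bool)) w = w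
  induction w with
  | nil => exact apply_nil g
  | cons x v ih =>
    rw [(sw_eq_zero g v).1 (h v) x, ih]

/-- the swap map below `v` -/
def swapFun (v : List Bool) : List Bool → List Bool
  | [] => []
  | (x :: w) => (if w = v then !x else x) :: swapFun v w

lemma swapFun_length (v w : List Bool) : (swapFun v w).length = w.length := by
  induction w with
  | nil => rfl
  | cons x w ih => simp [swapFun, ih]

lemma swapFun_of_length_le (v w : List Bool) (h : w.length ≤ v.length) : swapFun v w = w := by
  induction w with
  | nil => rfl
  | cons x w ih =>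
    simp only [List.length_cons] at h
    have h1 : w ≠ v := by
      rintro rfl
      omega
    simp [swapFun, ih (by omega), h1]

lemma swapFun_tail (v w : List Bool) : (swapFun v w).tail = swapFun v w.tail := by
  rcases w with _ | ⟨x, w⟩
  · rfl
  · rfl

lemma swapFun_invol (v w : List Bool) : swapFun v (swapFun v w) = w := by
  induction w with
  | nil => rfl
  | cons x w ih =>
    simp only [swapFun, ih]
    congr 1
    by_cases h : w = v
    · subst h
      rw [if_pos rfl, swapFun_of_length_le w w le_rfl, if_pos rfl, Bool.not_not]
    · rw [if_neg h, if_neg]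
      intro h'
      apply h
      have := ih
      rw [h', swapFun_of_length_le v v le_rfl] at this
      exact this.symm

/-- The swap of the two subtrees below the vertex `v`. -/
def swp (v : List Bool) : FG :=
  ⟨⟨swapFun v, swapFun v, swapFun_invol v, swapFun_invol v⟩, by
    refine ⟨swapFun_length v, swapFun_tail v, (Set.finite_singleton v).subset ?_⟩
    intro w hw
    by_contra hcon
    apply hw
    show swapFun v (true :: w) = true :: swapFun v w
    have : w ≠ v := hcon
    simp [swapFun, this]⟩

lemma swp_apply (v w : List Bool) : ((swp v : FG) : Equiv.Perm (List Bool)) w = swapFun v w := rfl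

lemma sw_swp (v w : List Bool) : sw ((swp v : FG) : Equiv.Perm (List Bool)) w =
    if w = v then 1 else 0 := by
  by_cases h : w = v
  · rw [if_pos h, sw_eq_one]
    intro x
    rw [swp_apply, swp_apply]
    simp [swapFun, h]
  · rw [if_neg h, sw_eq_zero]
    intro x
    rw [swp_apply, swp_apply]
    simp [swapFun, h]

/-- Every finitary automorphism is a product of swaps at vertices of its portrait. -/
lemma mem_closure_swp (g : FG) :
    g ∈ Subgroup.closure {h : FG | ∃ v, sw (g : Equiv.Perm (List Bool)) v ≠ 0 ∧ h = swp v} := by
  obtain ⟨n, hn⟩ : ∃ n, n = (sw_finite g).toFinset.card := ⟨_, rfl⟩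
  induction n generalizing g with
  | zero =>
    have h1 : (sw_finite g).toFinset = ∅ := Finset.card_eq_zero.1 hn.symm
    have h2 : g = 1 := by
      apply eq_one_of_sw
      intro v
      by_contra hcon
      have : v ∈ (sw_finite g).toFinset := by
        rw [Set.Finite.mem_toFinset]
        exact hcon
      rw [h1] at this
      simp at this
    rw [h2]
    exact one_mem _
  | succ n ih =>
    have hne : (sw_finite g).toFinset.Nonempty := by
      rw [← Finset.card_pos]
      omega
    obtain ⟨v, hv, hmax⟩ := Finset.exists_max_image (sw_finite g).toFinset List.length hne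
    have hv0 : sw (g : Equiv.Perm (List Bool)) v ≠ 0 := by
      simpa using hv
    have key : ∀ w, sw ((g * swp v : FG) : Equiv.Perm (List Bool)) w =
        if w = v then 0 else sw (g : Equiv.Perm (List Bool)) w := by
      intro w
      rw [sw_mul, sw_swp]
      by_cases h : w = v
      · subst h
        rw [if_pos rfl, if_pos rfl, swp_apply, swapFun_of_length_le w w le_rfl]
        rcases sw_zero_or_one (g : Equiv.Perm (List Bool)) w with h1 | h1
        · exact absurd h1 hv0
        · rw [h1]
          decide
      · rw [if_neg h, if_neg h, add_zero, swp_apply]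
        by_cases hl : w.length ≤ v.length
        · rw [swapFun_of_length_le v w hl]
        · have h1 : sw (g : Equiv.Perm (List Bool)) w = 0 := by
            by_contra hcon
            have := hmax w (by simpa using hcon)
            omega
          have h2 : sw (g : Equiv.Perm (List Bool)) (swapFun v w) = 0 := by
            by_contra hcon
            have := hmax (swapFun v w) (by simpa using hcon)
            rw [swapFun_length] at this
            omega
          rw [h1, h2]
    have hcard : n = (sw_finite (g * swp v)).toFinset.card := by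
      have h1 : (sw_finite (g * swp v)).toFinset = (sw_finite g).toFinset.erase v := by
        ext w
        rw [Finset.mem_erase, Set.Finite.mem_toFinset, Set.Finite.mem_toFinset, Set.mem_ofPred_eq,
          Set.mem_ofPred_eq, key]
        by_cases h : w = v
        · simp [h]
        · simp [h]
      rw [h1, Finset.card_erase_of_mem hv, ← hn]
      rfl
    have h2 := ih (g * swp v) hcard
    have h3 : swp v ∈ Subgroup.closure
        {h : FG | ∃ v, sw (g : Equiv.Perm (List Bool)) v ≠ 0 ∧ h = swp v} :=
      Subgroup.subset_closure ⟨v, hv0, rfl⟩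
    have h4 : g * swp v ∈ Subgroup.closure
        {h : FG | ∃ v, sw (g : Equiv.Perm (List Bool)) v ≠ 0 ∧ h = swp v} := by
      refine Subgroup.closure_mono ?_ h2
      rintro h ⟨w, hw, rfl⟩
      refine ⟨w, ?_, rfl⟩
      rw [key] at hw
      by_cases hwv : w = v
      · rw [if_pos hwv] at hw
        exact absurd rfl hw
      · rwa [if_neg hwv] at hw
    have h5 := mul_mem h4 (inv_mem h3)
    rwa [mul_inv_cancel_right] at h5

/-- The stabilizer of the vertices of length at most `n`. -/
def stab (n : ℕ) : Subgroup FG where
  carrier := {g | ∀ v : List Bool, v.length ≤ n → (g : Equiv.Perm (List Bool)) v = v}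
  one_mem' := fun _ _ => rfl
  mul_mem' := by
    intro g h hg hh v hv
    show (g : Equiv.Perm (List Bool)) ((h : Equiv.Perm (List Bool)) v) = v
    rw [hh v hv, hg v hv]
  inv_mem' := by
    intro g hg v hv
    show (g : Equiv.Perm (List Bool))⁻¹ v = v
    rw [Equiv.Perm.inv_eq_iff_eq, hg v hv]

lemma stab_normal (n : ℕ) : (stab n).Normal := by
  refine ⟨fun g hg h v hv => ?_⟩
  show (h : Equiv.Perm (List Bool)) ((g : Equiv.Perm (List Bool))
    ((h : Equiv.Perm (List Bool))⁻¹ v)) = v
  have h1 : ((h : Equiv.Perm (List Bool))⁻¹ v).length = v.length := length_apply h⁻¹ v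
  rw [hg _ (by omega)]
  exact (h : Equiv.Perm (List Bool)).apply_symm_apply v

lemma finite_le (n : ℕ) : {v : List Bool | v.length ≤ n}.Finite := List.finite_length_le Bool n

lemma stab_finiteIndex (n : ℕ) : (stab n).FiniteIndex := by
  classical
  have : Finite {v : List Bool // v.length ≤ n} := (finite_le n).to_subtype
  let φ : FG → ({v : List Bool // v.length ≤ n} → {v : List Bool // v.length ≤ n}) :=
    fun g v => ⟨(g : Equiv.Perm (List Bool)) v.1, by rw [length_apply]; exact v.2⟩
  have : Finite (FG ⧸ stab n) := by
    let ψ : (FG ⧸ stab n) → ({v : List Bool // v.length ≤ n} → {v : List Bool // v.length ≤ n}) :=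
      fun q => φ q.out
    refine Finite.of_injective ψ ?_
    intro p q hpq
    have h1 : (p.out : FG)⁻¹ * q.out ∈ stab n := by
      intro v hv
      have h2 := congrArg Subtype.val (congrFun hpq ⟨v, hv⟩)
      show ((p.out : FG) : Equiv.Perm (List Bool))⁻¹ (((q.out : FG) : Equiv.Perm (List Bool)) v) = v
      rw [Equiv.Perm.inv_eq_iff_eq]
      exact h2.symm
    have h3 := QuotientGroup.eq.2 h1
    rwa [QuotientGroup.out_eq', QuotientGroup.out_eq'] at h3
  exact Subgroup.finiteIndex_of_finite_quotient

/-- The character of the finitary group attached to a set of levels. -/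
noncomputable def chi (A : Set ℕ) : FG →* Multiplicative (ZMod 2) := by
  classical
  exact
  { toFun := fun g => Multiplicative.ofAdd
      (∑ᶠ v : List Bool, if v.length ∈ A then sw (g : Equiv.Perm (List Bool)) v else 0)
    map_one' := by
      have : ∀ v : List Bool, sw ((1 : FG) : Equiv.Perm (List Bool)) v = 0 := by
        intro v
        rw [sw_eq_zero]
        intro x
        rfl
      have h2 : (fun v : List Bool => if v.length ∈ A then
          sw ((1 : FG) : Equiv.Perm (List Bool)) v else 0) = fun _ => 0 := by
        funext v
        rw [this]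
        simp
      rw [h2, finsum_zero]
      rfl
    map_mul' := by
      intro g h
      rw [← ofAdd_add]
      congr 1
      have hfin : ∀ g : FG, (Function.support fun v : List Bool =>
          if v.length ∈ A then sw (g : Equiv.Perm (List Bool)) v else 0).Finite := by
        intro g
        refine (sw_finite g).subset ?_
        intro v hv hcon
        apply hv
        simp [hcon]
      have h1 : ∑ᶠ v : List Bool, (if v.length ∈ A then sw (g : Equiv.Perm (List Bool)) v else 0) =
          ∑ᶠ v : List Bool, (if v.length ∈ A then
            sw (g : Equiv.Perm (List Bool)) ((h : Equiv.Perm (List Bool)) v) else 0) := by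
        rw [← finsum_comp_equiv (h : Equiv.Perm (List Bool))]
        refine finsum_congr fun v => ?_
        rw [length_apply]
      rw [h1, ← finsum_add_distrib]
      · refine finsum_congr fun v => ?_
        rw [sw_mul]
        split_ifs
        · rfl
        · rw [add_zero]
      · refine ((hfin g).preimage (h : Equiv.Perm (List Bool)).injective.injOn).subset ?_
        intro v hv hcon
        apply hv
        show (if v.length ∈ A then
            sw (g : Equiv.Perm (List Bool)) ((h : Equiv.Perm (List Bool)) v) else 0) = 0
        have : (if ((h : Equiv.Perm (List Bool)) v).length ∈ A then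
            sw (g : Equiv.Perm (List Bool)) ((h : Equiv.Perm (List Bool)) v) else 0) = 0 := hcon
        rwa [length_apply] at this
      · exact hfin h }

lemma chi_swp (A : Set ℕ) (v : List Bool) :
    chi A (swp v) = 1 ↔ v.length ∉ A := by
  classical
  have h1 : chi A (swp v) = Multiplicative.ofAdd (∑ᶠ w : List Bool, if w.length ∈ A then
      sw ((swp v : FG) : Equiv.Perm (List Bool)) w else 0) := rfl
  have h2 : (∑ᶠ w : List Bool, if w.length ∈ A then
      sw ((swp v : FG) : Equiv.Perm (List Bool)) w else 0) = if v.length ∈ A then 1 else 0 := by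
    rw [finsum_eq_single _ v]
    · rw [sw_swp, if_pos rfl]
    · intro w hw
      rw [sw_swp, if_neg hw]
      simp
  rw [h1, h2]
  by_cases h : v.length ∈ A
  · simp only [h, if_true, not_true_eq_false, iff_false]
    decide
  · simp [h]

/-- The terms of the normal T-sequence attached to a set of levels. -/
noncomputable def MM (A : Set ℕ) (i : ℕ) : Subgroup FG := stab i ⊓ (chi A).ker

lemma MM_antitone (A : Set ℕ) : Antitone (MM A) := by
  intro i j hij g hg
  refine ⟨fun v hv => hg.1 v (hv.trans hij), hg.2⟩

lemma MM_normal (A : Set ℕ) (i : ℕ) : (MM A i).Normal := by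
  have := stab_normal i
  unfold MM
  infer_instance

lemma MM_finiteIndex (A : Set ℕ) (i : ℕ) : (MM A i).FiniteIndex := by
  have := stab_finiteIndex i
  have : Finite (chi A).range := inferInstance
  have : (chi A).ker.FiniteIndex := inferInstance
  unfold MM
  infer_instance

lemma MM_inf (A : Set ℕ) : (⨅ i : ℕ, MM A i) = ⊥ := by
  rw [eq_bot_iff]
  intro g hg
  rw [Subgroup.mem_iInf] at hg
  rw [Subgroup.mem_bot]
  apply Subtype.ext
  apply Equiv.ext
  intro w
  exact (hg w.length).1 w le_rfl

lemma swp_mem_stab {n : ℕ} {v : List Bool} (h : n ≤ v.length) : swp v ∈ stab n := by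
  intro w hw
  rw [swp_apply, swapFun_of_length_le v w (by omega)]

lemma MM_not_le {A B : Set ℕ} (hAB : ∀ n, ∃ m, n ≤ m ∧ m ∈ A ∧ m ∉ B) (i : ℕ) :
    ¬ ∃ j, MM B j ≤ MM A i := by
  rintro ⟨j, hj⟩
  obtain ⟨m, hm, hA, hB⟩ := hAB j
  let v : List Bool := List.replicate m true
  have hv : v.length = m := List.length_replicate
  have h1 : swp v ∈ MM B j := by
    refine ⟨swp_mem_stab (by omega), ?_⟩
    exact (chi_swp B v).2 (by rwa [hv])
  have h2 := (chi_swp A v).1 (hj h1).2
  rw [hv] at h2
  exact h2 hA

/-- The set of levels of the `a`-th sequence. -/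
def lev (a : ℕ) : Set ℕ := {n | (Nat.unpair n).1 = a}

lemma lev_diff {a b : ℕ} (hab : a ≠ b) (n : ℕ) : ∃ m, n ≤ m ∧ m ∈ lev a ∧ m ∉ lev b := by
  refine ⟨Nat.pair a n, Nat.right_le_pair a n, ?_, ?_⟩
  · show (Nat.unpair (Nat.pair a n)).1 = a
    rw [Nat.unpair_pair]
  · show ¬ (Nat.unpair (Nat.pair a n)).1 = b
    rw [Nat.unpair_pair]
    exact hab

lemma transitive (v w : List Bool) (h : v.length = w.length) :
    ∃ g : FG, (g : Equiv.Perm (List Bool)) v = w := by
  induction v generalizing w with
  | nil =>
    refine ⟨1, ?_⟩
    have : w = [] := List.length_eq_zero_iff.1 (by simpa using h.symm)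
    rw [this]
    rfl
  | cons x v ih =>
    rcases w with _ | ⟨y, w⟩
    · simp at h
    · obtain ⟨g, hg⟩ := ih w (by simpa using h)
      obtain ⟨z, hz⟩ := apply_cons g x v
      by_cases hzy : z = y
      · exact ⟨g, by rw [hz, hg, hzy]⟩
      · refine ⟨swp w * g, ?_⟩
        show ((swp w : FG) : Equiv.Perm (List Bool)) ((g : Equiv.Perm (List Bool)) (x :: v)) = y :: w
        rw [hz, hg, swp_apply]
        simp only [swapFun, if_true, swapFun_of_length_le w w le_rfl]
        congr 1
        revert hzy
        cases z <;> cases y <;> simp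

/-- A swap below level `n` lies in a rigid stabilizer of level `n`. -/
lemma swp_rigid {n : ℕ} {v : List Bool} (h : n ≤ v.length) :
    ∃ u : List Bool, u.length = n ∧ ∀ w : List Bool, (∀ k : ℕ, List.tail^[k] w ≠ u) →
      ((swp v : FG) : Equiv.Perm (List Bool)) w = w := by
  refine ⟨List.tail^[v.length - n] v, ?_, ?_⟩
  · have : ∀ (k : ℕ) (w : List Bool), (List.tail^[k] w).length = w.length - k := by
      intro k
      induction k with
      | zero => intro w; rfl
      | succ k ih =>
        intro w
        rw [Function.iterate_succ_apply, ih, List.length_tail]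
        omega
    rw [this]
    omega
  · intro w hw
    rw [swp_apply]
    induction w with
    | nil => rfl
    | cons x w ih =>
      have h1 : w ≠ v := by
        rintro rfl
        apply hw (w.length - n + 1)
        rw [Function.iterate_succ_apply]
        rfl
      have h2 : swapFun v w = w := by
        apply ih
        intro k hk
        apply hw (k + 1)
        rw [Function.iterate_succ_apply]
        exact hk
      simp [swapFun, h1, h2]

lemma rist_finiteIndex (n : ℕ) : (Subgroup.closure {g : FG | ∃ v : List Bool, v.length = n ∧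
    ∀ w : List Bool, (∀ k : ℕ, List.tail^[k] w ≠ v) →
      (g : Equiv.Perm (List Bool)) w = w}).FiniteIndex := by
  have := stab_finiteIndex n
  refine Subgroup.finiteIndex_of_le (H := stab n) ?_
  intro g hg
  refine Subgroup.closure_mono ?_ (mem_closure_swp g)
  rintro h ⟨v, hv, rfl⟩
  apply swp_rigid
  by_contra hcon
  apply hv
  rw [sw_eq_zero]
  intro x
  rw [hg (x :: v) (by simp only [List.length_cons]; omega), hg v (by omega)]

end Pool.Agent.D0H78.Finitary
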